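import Pool.Agent.W717.UR.Stm

/-! Project UR (helper717), part PROX. -/

set_option autoImplicit false

namespace Pool.Agent.W99.UR

open Filter Topology
open Pool.Agent.W717.UR

attribute [local instance] Ultrafilter.addSemigroup

theorem prox : S_PROX := by
  intro q hq z x hz hx hE
  choose n hn using hE
  set r : Ultrafilter ℕ := (Ultrafilter.of atTop).map n with hr
  have hrE : ∀ j : ℕ, ∀ᶠ b in (r : Filter ℕ), ∀ i < j, z (b + i) = x (b + i) := by
    intro j
    rw [hr, Ultrafilter.coe_map, Filter.eventually_map]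
    refine (Ultrafilter.of_le atTop) ?_
    filter_upwards [Filter.eventually_ge_atTop j] with k hk i hi
    exact hn k i (lt_of_lt_of_le hi hk)
  obtain ⟨s, hs⟩ := hq r
  funext i
  have h1 : ∀ᶠ c in (q : Filter ℕ), z (c + i) = z i ∧ x (c + i) = x i := (hz i).and (hx i)
  rw [← hs, Ultrafilter.eventually_add] at h1
  obtain ⟨a, ha⟩ := h1.exists
  rw [Ultrafilter.eventually_add] at ha
  obtain ⟨b, hb, hb2⟩ := (ha.and (hrE (a + i + 1))).exists
  obtain ⟨c, hc1, hc2, hc3⟩ := (hb.and ((hz (a + b + i)).and (hx (a + b + i)))).exists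
  have e : a + (b + c) + i = c + (a + b + i) := by ring
  rw [e] at hc1
  have e1 : z i = z (a + b + i) := by rw [← hc1.1, hc2]
  have e2 : x i = x (a + b + i) := by rw [← hc1.2, hc3]
  rw [e1, e2]
  have := hb2 (a + i) (by omega)
  have e3 : a + b + i = b + (a + i) := by ring
  rw [e3]
  exact this

end Pool.Agent.W99.UR
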